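import Mathlib
import Pool.Agent.Sprindzhuk.BorelCantelli

/-!
# Uniform lower bound for integer polynomials at almost all reals

For every `ε > 0` and Lebesgue-almost every real `ξ` there is a constant `C` such that
`|P(ξ)| > exp (-(1+ε) n log H - K(n))` with `K(n) = 20 n³` for all integer polynomials `P` of
degree `n ≥ 1` and height `H` with `max n H ≥ C`.

The proof makes the Kleinbock–Margulis quantitative nondivergence theorem for the curve
`(1, x, …, x^n)` explicit in `n`, proves it (files `Pool/Agent/Sprindzhuk/`), and applies the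
Borel–Cantelli lemma to all degrees simultaneously.
-/

open MeasureTheory Metric Set Polynomial Module Filter
open scoped ENNReal

namespace Pool.Agent.Results.MP_c5a493_nt.UniformBound

open Pool.Agent.Sprindzhuk

/-- The naive height of an integer polynomial: the maximum of the absolute values of its
coefficients. -/
def height (P : ℤ[X]) : ℕ := P.support.sup fun i => (P.coeff i).natAbs

/-- The property of the sequence `K` asked for in the question. -/
def IsUniformBound (K : ℕ → ℝ) : Prop :=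
  ∀ ε : ℝ, 0 < ε → ∀ᵐ ξ : ℝ ∂volume, ∃ C : ℝ, ∀ P : ℤ[X], 1 ≤ P.natDegree →
    C ≤ max (P.natDegree : ℝ) (height P : ℝ) →
      Real.exp (-((1 + ε) * P.natDegree * Real.log (height P)) - K P.natDegree) < |aeval ξ P|

lemma natAbs_coeff_le (P : ℤ[X]) (i : ℕ) : (P.coeff i).natAbs ≤ height P := by
  by_cases h : i ∈ P.support
  · exact Finset.le_sup (f := fun i => (P.coeff i).natAbs) h
  · rw [notMem_support_iff.1 h]; simp

lemma one_le_height (P : ℤ[X]) (hP : P ≠ 0) : 1 ≤ height P := by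
  have h1 : P.coeff P.natDegree ≠ 0 := by
    rw [coeff_natDegree]; exact leadingCoeff_ne_zero.2 hP
  have h2 := natAbs_coeff_le P P.natDegree
  have h3 : 1 ≤ (P.coeff P.natDegree).natAbs := Int.natAbs_pos.2 h1
  omega

/-- The deterministic part. -/
lemma bound_of_notMem_bad (ε : ℝ) (hε : 0 < ε) (hε1 : ε ≤ 1) (n : ℕ) (hn : 1 ≤ n) (H : ℝ) (hH : 1 ≤ H) :
    ∃ k : ℕ, H < 2 ^ k ∧ ∀ (x r : ℝ), x ∈ closedBall (0 : ℝ) r → x ∉ bad (ε / 3) n k r →
      ∀ v : Fin (n + 1) → ℤ, v ≠ 0 → (∀ i, |(v i : ℝ)| ≤ H) →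
        Real.exp (-((1 + ε) * n * Real.log H) - 20 * (n : ℝ) ^ 3) < |∑ i, (v i : ℝ) * x ^ (i : ℕ)| := by
  have h32 := log32_pos
  have h2 := log2_pos
  have h2u := Real.log_two_lt_d9
  have hlog32 : Real.log 32 = 5 * Real.log 2 := by
    rw [show (32:ℝ) = 2 ^ 5 by norm_num, Real.log_pow]; norm_num
  have hn0 : (0:ℝ) < n := by exact_mod_cast hn
  have hn1 : (1:ℝ) ≤ n := by exact_mod_cast hn
  set γ : ℝ := ε / 3 with hγ
  have hγ0 : 0 < γ := by positivity
  have hγ1 : γ ≤ 1 / 3 := by rw [hγ]; linarith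
  have hlogH : 0 ≤ Real.log H := Real.log_nonneg hH
  have hlogn : Real.log (n + 1) ≤ n := by
    have := Real.log_le_sub_one_of_pos (show (0:ℝ) < (n:ℝ) + 1 by positivity)
    linarith
  have hlogn0 : 0 ≤ Real.log (n + 1) := Real.log_nonneg (by linarith)
  set Λ : ℝ := Real.log H + n ^ 2 * Real.log 32 + 2 * Real.log (n + 1) with hΛ
  have hΛ0 : 0 ≤ Λ := by positivity
  have hΛH : Real.log H ≤ Λ := by
    have h5 : 0 ≤ n ^ 2 * Real.log 32 + 2 * Real.log (n + 1) := by positivity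
    linarith
  have hden : 0 < (1 - γ) * Real.log 2 := mul_pos (by linarith) h2
  set k : ℕ := ⌊Λ / ((1 - γ) * Real.log 2)⌋₊ + 1 with hk
  have hk1 : Λ < k * ((1 - γ) * Real.log 2) := by
    rw [← div_lt_iff₀ hden, hk]
    push_cast
    exact Nat.lt_floor_add_one _
  have hk2 : (k : ℝ) * ((1 - γ) * Real.log 2) ≤ Λ + (1 - γ) * Real.log 2 := by
    have : (k : ℝ) ≤ Λ / ((1 - γ) * Real.log 2) + 1 := by
      rw [hk]; push_cast
      have := Nat.floor_le (show 0 ≤ Λ / ((1 - γ) * Real.log 2) by positivity)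
      linarith
    calc (k : ℝ) * ((1 - γ) * Real.log 2)
        ≤ (Λ / ((1 - γ) * Real.log 2) + 1) * ((1 - γ) * Real.log 2) :=
          mul_le_mul_of_nonneg_right this hden.le
      _ = Λ + (1 - γ) * Real.log 2 := by
          rw [add_mul, div_mul_cancel₀ _ hden.ne', one_mul]
  have hk0 : (0:ℝ) ≤ k := Nat.cast_nonneg k
  -- the quantity `δ`
  have hη : (Real.exp (-(n * Real.log 32 + k * γ * Real.log 2 / n))) ^ n / ((n:ℝ) + 1) ^ 2 =
      Real.exp (-(n ^ 2 * Real.log 32 + k * γ * Real.log 2 + 2 * Real.log (n + 1))) := by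
    rw [← Real.exp_nat_mul]
    have h6 : ((n:ℝ) + 1) ^ 2 = Real.exp (2 * Real.log (n + 1)) := by
      rw [show (2:ℝ) * Real.log (n + 1) = ((2:ℕ):ℝ) * Real.log (n + 1) by norm_num,
        Real.exp_nat_mul, Real.exp_log (by positivity)]
    rw [h6, ← Real.exp_sub]
    congr 1
    field_simp
    ring
  have h2k : (2:ℝ) ^ k = Real.exp (k * Real.log 2) := by
    rw [Real.exp_nat_mul, Real.exp_log (by norm_num)]
  refine ⟨k, ?_, ?_⟩
  · rw [h2k, ← Real.exp_log (show 0 < H by linarith), Real.exp_lt_exp]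
    have : (k:ℝ) * ((1 - γ) * Real.log 2) ≤ k * Real.log 2 := by
      apply mul_le_mul_of_nonneg_left _ hk0
      nlinarith
    linarith
  · intro x r hx hbad v hv0 hvH
    have hcoef : ∀ i, |(v i : ℝ)| <
        (Real.exp (-(n * Real.log 32 + k * γ * Real.log 2 / n))) ^ n / ((n:ℝ) + 1) ^ 2 * 2 ^ k := by
      intro i
      refine lt_of_le_of_lt (hvH i) ?_
      rw [hη, h2k, ← Real.exp_add, ← Real.exp_log (show 0 < H by linarith), Real.exp_lt_exp]
      rw [hΛ] at hk1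
      linarith
    have hge : (Real.exp (-(n * Real.log 32 + k * γ * Real.log 2 / n))) ^ n / ((n:ℝ) + 1) ^ 2 ≤
        ((2 : ℝ) ^ k) ^ n * |∑ i, (v i : ℝ) * x ^ (i : ℕ)| := by
      by_contra hcon
      push Not at hcon
      exact hbad ⟨hx, v, hv0, hcoef, hcon⟩
    rw [hη, h2k, ← Real.exp_nat_mul] at hge
    have hlow : Real.exp (-(n ^ 2 * Real.log 32 + k * γ * Real.log 2 + 2 * Real.log (n + 1))
        - n * (k * Real.log 2)) ≤ |∑ i, (v i : ℝ) * x ^ (i : ℕ)| := by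
      rw [Real.exp_sub, div_le_iff₀ (Real.exp_pos _)]
      exact hge.trans (le_of_eq (mul_comm _ _))
    refine lt_of_lt_of_le ?_ hlow
    rw [Real.exp_lt_exp]
    -- main exponent comparison
    have hratio : (n + γ) ≤ (1 + ε) * n * (1 - γ) := by
      have h7 : ε = 3 * γ := by rw [hγ]; ring
      rw [h7]
      nlinarith [mul_nonneg hγ0.le (show (0:ℝ) ≤ n - 1 by linarith),
        mul_nonneg (mul_nonneg hγ0.le (show (0:ℝ) ≤ n by linarith)) (show (0:ℝ) ≤ 1 / 3 - γ by linarith)]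
    have hkn : (k:ℝ) * ((n + γ) * Real.log 2) ≤ (1 + ε) * n * (Λ + (1 - γ) * Real.log 2) := by
      calc (k:ℝ) * ((n + γ) * Real.log 2) ≤ k * (((1 + ε) * n * (1 - γ)) * Real.log 2) := by gcongr
        _ = (1 + ε) * n * (k * ((1 - γ) * Real.log 2)) := by ring
        _ ≤ (1 + ε) * n * (Λ + (1 - γ) * Real.log 2) := by gcongr
    have hA : (1 + ε) * n * (n ^ 2 * Real.log 32 + 2 * Real.log (n + 1) + (1 - γ) * Real.log 2) ≤
        2 * n * (n ^ 2 * 3.5 + 2 * n + 0.7) := by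
      have h8 : Real.log 32 ≤ 3.5 := by rw [hlog32]; linarith
      have h9 : (1 - γ) * Real.log 2 ≤ 0.7 := by nlinarith
      have h10 : (1 + ε) ≤ 2 := by linarith
      have h11 : 0 ≤ (1 - γ) * Real.log 2 := hden.le
      gcongr
    have hB : n ^ 2 * Real.log 32 + 2 * Real.log (n + 1) ≤ n ^ 2 * 3.5 + 2 * n := by
      have h8 : Real.log 32 ≤ 3.5 := by rw [hlog32]; linarith
      gcongr
    have hC : 2 * n * (n ^ 2 * 3.5 + 2 * n + 0.7) + (n ^ 2 * 3.5 + 2 * n) < 20 * (n:ℝ) ^ 3 := by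
      have h12 : (n:ℝ) ≤ n ^ 2 := le_self_pow₀ hn1 (by norm_num)
      have h13 : (n:ℝ) ^ 2 ≤ n ^ 3 := pow_le_pow_right₀ hn1 (by norm_num)
      have h14 : 2 * n * (n ^ 2 * 3.5 + 2 * n + 0.7) + (n ^ 2 * 3.5 + 2 * n) =
          7 * (n:ℝ) ^ 3 + 7.5 * (n:ℝ) ^ 2 + 3.4 * n := by ring
      have h15 : (0:ℝ) < (n:ℝ) ^ 3 := by positivity
      rw [h14]
      linarith
    have hexpand : (1 + ε) * n * (Λ + (1 - γ) * Real.log 2) = (1 + ε) * n * Real.log H +
        (1 + ε) * n * (n ^ 2 * Real.log 32 + 2 * Real.log (n + 1) + (1 - γ) * Real.log 2) := by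
      rw [hΛ]; ring
    rw [hexpand] at hkn
    have hsplit : (k:ℝ) * ((n + γ) * Real.log 2) = k * γ * Real.log 2 + n * (k * Real.log 2) := by ring
    rw [hsplit] at hkn
    linarith

/-- **Full answer to Q1 with an explicit sequence**: `K(n) = 20 n³` is a uniform bound. -/
theorem result : IsUniformBound (fun n => 20 * (n : ℝ) ^ 3) := by
  -- reduce to `ε ≤ 1`
  suffices h : ∀ ε : ℝ, 0 < ε → ε ≤ 1 → ∀ᵐ ξ : ℝ ∂volume, ∃ C : ℝ, ∀ P : ℤ[X], 1 ≤ P.natDegree →
      C ≤ max (P.natDegree : ℝ) (height P : ℝ) →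
      Real.exp (-((1 + ε) * P.natDegree * Real.log (height P)) - 20 * (P.natDegree : ℝ) ^ 3) <
        |aeval ξ P| by
    intro ε hε
    filter_upwards [h (min ε 1) (lt_min hε one_pos) (min_le_right _ _)] with ξ hξ
    obtain ⟨C, hC⟩ := hξ
    refine ⟨C, fun P hP hCP => lt_of_le_of_lt ?_ (hC P hP hCP)⟩
    rw [Real.exp_le_exp]
    have hP0 : P ≠ 0 := by rintro rfl; simp at hP
    have h1 : 0 ≤ Real.log (height P) := Real.log_nonneg (by exact_mod_cast one_le_height P hP0)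
    have h2 : min ε 1 ≤ ε := min_le_left _ _
    have h3 : (1 + min ε 1) * P.natDegree * Real.log (height P) ≤
        (1 + ε) * P.natDegree * Real.log (height P) := by gcongr
    linarith
  intro ε hε hε1
  have hae : ∀ᵐ ξ : ℝ ∂volume, ∀ j : ℕ,
      {p : ℕ × ℕ | ξ ∈ bad (ε / 3) (p.1 + 1) p.2 ((p.1 + 1 : ℕ) + j)}.Finite := by
    rw [ae_all_iff]
    intro j
    exact ae_finite_setOfPred_mem (tsum_bad (ε / 3) (by positivity) (by linarith) j)
  filter_upwards [hae] with ξ hξ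
  obtain ⟨j, hj⟩ := exists_nat_ge |ξ|
  have hfin := hξ j
  obtain ⟨B₁, hB₁⟩ := (hfin.image Prod.fst).bddAbove
  obtain ⟨B₂, hB₂⟩ := (hfin.image Prod.snd).bddAbove
  refine ⟨max ((B₁ : ℝ) + 2) (2 ^ B₂), fun P hP hCP => ?_⟩
  have hP0 : P ≠ 0 := by rintro rfl; simp at hP
  obtain ⟨m, hm⟩ : ∃ m, P.natDegree = m + 1 := ⟨P.natDegree - 1, by omega⟩
  have hH1 : (1:ℝ) ≤ height P := by exact_mod_cast one_le_height P hP0
  obtain ⟨k, hkH, hk⟩ := bound_of_notMem_bad ε hε hε1 (m + 1) (by omega) (height P : ℝ) hH1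
  have hnotbad : ξ ∉ bad (ε / 3) (m + 1) k ((m + 1 : ℕ) + j) := by
    intro hbad
    have h1 : m ≤ B₁ := hB₁ ⟨(m, k), hbad, rfl⟩
    have h2 : k ≤ B₂ := hB₂ ⟨(m, k), hbad, rfl⟩
    have h3 : (P.natDegree : ℝ) < max ((B₁ : ℝ) + 2) (2 ^ B₂) := by
      rw [hm]
      have : ((m + 1 : ℕ) : ℝ) < (B₁ : ℝ) + 2 := by
        push_cast
        have : (m:ℝ) ≤ B₁ := by exact_mod_cast h1
        linarith
      exact lt_of_lt_of_le this (le_max_left _ _)
    have h4 : (height P : ℝ) < max ((B₁ : ℝ) + 2) (2 ^ B₂) := by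
      refine lt_of_lt_of_le hkH (le_trans ?_ (le_max_right _ _))
      exact pow_le_pow_right₀ (by norm_num) h2
    exact absurd hCP (not_le.2 (max_lt h3 h4))
  have hx : ξ ∈ closedBall (0 : ℝ) ((m + 1 : ℕ) + j) := by
    rw [mem_closedBall, dist_zero_right, Real.norm_eq_abs]
    have : (0:ℝ) ≤ ((m + 1 : ℕ) : ℝ) := Nat.cast_nonneg _
    linarith
  let v : Fin (m + 1 + 1) → ℤ := fun i => P.coeff i
  have hv0 : v ≠ 0 := by
    intro h
    have h1 := congrFun h (Fin.last (m + 1))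
    simp only [v, Fin.val_last, Pi.zero_apply] at h1
    rw [← hm, coeff_natDegree] at h1
    exact hP0 (leadingCoeff_eq_zero.1 h1)
  have hvH : ∀ i, |(v i : ℝ)| ≤ height P := by
    intro i
    have h1 := natAbs_coeff_le P i
    have h2 : |(v i : ℝ)| = (((P.coeff i).natAbs : ℕ) : ℝ) := by
      simp only [v]
      rw [Nat.cast_natAbs, Int.cast_abs]
    rw [h2]
    exact_mod_cast h1
  have hfinal := hk ξ _ hx hnotbad v hv0 hvH
  have hsum : ∑ i, (v i : ℝ) * ξ ^ (i : ℕ) = aeval ξ P := by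
    rw [aeval_eq_sum_range, hm, Finset.sum_range]
    refine Finset.sum_congr rfl fun i _ => ?_
    simp only [v, zsmul_eq_mul]
  rw [hsum] at hfinal
  rw [hm]
  exact hfinal

end Pool.Agent.Results.MP_c5a493_nt.UniformBound
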